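import Mathlib
import Pool.Agent.V7H86.HD.T4
import Pool.Agent.V7H86.HD.T13
import Pool.Agent.V7H86.HD.X5

/-!
# MP_dc8965_an: invariant subspaces of the Hardy operator on `L^p(0,1)`

Joint work in the team: helper78 (paper proof for `1 < p < 2`), helper86 (windows, shift spaces,
closers, Theorems B and C, the extension to all `p`), helper27, helper34, helper35, helper38,
helper51, helper98 (transfer to the half-line, semigroup, exponentials, averages, discretisation,
pairing, assembly).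

* `1 < p < 2`: every closed subspace invariant for the Hardy operator is a monomial space.
* `1 < p < ∞`: the common kernel of any family of bounded operators which commute with the Hardy
  operator is a monomial space.
-/

set_option autoImplicit false

open MeasureTheory Set Filter
open scoped ENNReal Topology

namespace Pool.Agent.Results.MP_dc8965_an.HardyInvariantSubspacesH86

/-- complex `L^p(0,1)` -/
abbrev LP (p : ℝ≥0∞) : Type := Lp ℂ p (volume.restrict (Ioo (0 : ℝ) 1))

/-- `g = H f`, the Hardy operator -/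
structure IsHardy {p : ℝ≥0∞} (f g : LP p) : Prop where
  ae_eq : ∀ᵐ x ∂(volume.restrict (Ioo (0 : ℝ) 1)), g x = (1 / x : ℝ) * ∫ t in (0 : ℝ)..x, f t

/-- `g` is the monomial `x ^ z` -/
structure IsMono {p : ℝ≥0∞} (z : ℂ) (g : LP p) : Prop where
  ae_eq : ∀ᵐ x ∂(volume.restrict (Ioo (0 : ℝ) 1)), g x = (x : ℂ) ^ z

/-- `M` is the limit of a sequence of finite monomial spaces `span {x ^ z : z ∈ s n}` -/
structure IsMonomialSpace {p : ℝ≥0∞} [Fact (1 ≤ p)] (M : Submodule ℂ (LP p)) : Prop where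
  exists_seq : ∃ s : ℕ → Finset ℂ, (∀ n, ∀ z ∈ s n, -(1 / p.toReal) < z.re) ∧
    ∀ f, f ∈ M ↔ Tendsto (fun n => Metric.infDist f
      (Submodule.span ℂ {g : LP p | ∃ z ∈ s n, IsMono z g} : Set (LP p))) atTop (𝓝 0)

open Pool.Agent.V7H86 in
theorem isHardy_iff {p : ℝ≥0∞} (f g : LP p) : HD.IsHardy f g ↔ IsHardy f g := by
  constructor
  · intro h
    refine ⟨?_⟩
    filter_upwards [h] with x hx
    rw [hx, Complex.real_smul]
  · intro h
    show ∀ᵐ x ∂(volume.restrict (Ioo (0 : ℝ) 1)), g x = (1 / x : ℝ) • ∫ t in (0 : ℝ)..x, f t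
    filter_upwards [h.ae_eq] with x hx
    rw [hx, Complex.real_smul]

open Pool.Agent.V7H86 in
theorem isMonomialSpace {p : ℝ≥0∞} [Fact (1 ≤ p)] (M : Submodule ℂ (LP p))
    (h : HD.IsMonomialSpace M) : IsMonomialSpace M := by
  obtain ⟨s, h1, h2⟩ := h
  have e : ∀ n, HD.monoSpan (p := p) (s n : Set ℂ) =
      Submodule.span ℂ {g : LP p | ∃ z ∈ s n, IsMono z g} := by
    intro n
    unfold HD.monoSpan
    congr 1
    ext g
    constructor
    · rintro ⟨z, hz, hg⟩
      exact ⟨z, hz, ⟨hg⟩⟩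
    · rintro ⟨z, hz, hg⟩
      exact ⟨z, hz, hg.ae_eq⟩
  refine ⟨s, h1, fun f => ?_⟩
  rw [h2]
  simp only [e]

/-- Main theorem. -/
theorem result (p : ℝ≥0∞) [Fact (1 ≤ p)] (hp1 : 1 < p) (hp : p ≠ ∞) :
    -- the Hardy operator is defined on all of `L^p`
    (∀ f : LP p, ∃ g : LP p, IsHardy f g) ∧
    -- for `p < 2` every closed invariant subspace is a monomial space
    (p < 2 → ∀ M : Submodule ℂ (LP p), IsClosed (M : Set (LP p)) →
      (∀ f ∈ M, ∀ g, IsHardy f g → g ∈ M) → IsMonomialSpace M) ∧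
    -- for all `p` the common kernel of operators commuting with `H` is a monomial space
    (∀ (W : Set (LP p →L[ℂ] LP p)) (M : Submodule ℂ (LP p)),
      (∀ V ∈ W, ∀ f g, IsHardy f g → IsHardy (V f) (V g)) →
      (∀ f, f ∈ M ↔ ∀ V ∈ W, V f = 0) → IsMonomialSpace M) := by
  refine ⟨fun f => ?_, fun hp2 M hM hinv => ?_, fun W M hW hM => ?_⟩
  · obtain ⟨g, hg⟩ := Pool.Agent.V7H86.HD.hardy_exists hp1 hp f
    exact ⟨g, (isHardy_iff f g).1 hg⟩
  · have hr1 : 1 < p.toReal := by
      rw [← ENNReal.toReal_one]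
      exact (ENNReal.toReal_lt_toReal ENNReal.one_ne_top hp).2 hp1
    have hr2 : p.toReal < 2 := by
      have := (ENNReal.toReal_lt_toReal hp (by norm_num : (2 : ℝ≥0∞) ≠ ∞)).2 hp2
      simpa using this
    exact isMonomialSpace M (Pool.Agent.V7H86.HD.main hp1 hp (fun M hMc hMP hMS g hg =>
      Pool.Agent.V7H86.HD.thmC hp hr1 hr2 M hMc hMP hMS g hg) M hM
      (fun f hf g hg => hinv f hf g ((isHardy_iff f g).1 hg))).2
  · exact isMonomialSpace M (Pool.Agent.V7H86.HD.mainX hp1 hp W (fun V hV f g hfg =>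
      (isHardy_iff _ _).2 (hW V hV f g ((isHardy_iff f g).1 hfg))) M hM)

end Pool.Agent.Results.MP_dc8965_an.HardyInvariantSubspacesH86
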